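import Mathlib

/-! N integrations by parts for a Laplace-type integral. -/

set_option autoImplicit false

open MeasureTheory Set Filter Topology Complex
open scoped ContDiff

namespace Pool.Agent.J6H73.PI

/-- one integration by parts -/
theorem ibp1 (φ : ℝ → ℝ) (hφ : ContDiff ℝ ∞ φ) (R : ℝ) (hs : ∀ x, R < |x| → φ x = 0) (α : ℂ)
    (hα : α ≠ 0) (n : ℕ) :
    ∫ x : ℝ, ((iteratedDeriv n φ x : ℝ) : ℂ) * cexp (α * x) =
      -(α⁻¹ * ∫ x : ℝ, ((iteratedDeriv (n + 1) φ x : ℝ) : ℂ) * cexp (α * x)) := by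
  have hcs : ∀ m, HasCompactSupport (fun x => ((iteratedDeriv m φ x : ℝ) : ℂ)) := by
    intro m
    refine HasCompactSupport.intro (isCompact_Icc (a := -R) (b := R)) fun x hx => ?_
    have hx' : R < |x| := by
      by_contra hcon
      exact hx (abs_le.1 (not_lt.1 hcon))
    have hopen : ∀ᶠ y in 𝓝 x, R < |y| := (continuous_abs.tendsto x).eventually (lt_mem_nhds hx')
    have h1 : φ =ᶠ[𝓝 x] fun _ => (0 : ℝ) := hopen.mono fun y hy => hs y hy
    have h2 := h1.iteratedDeriv_eq m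
    rw [h2]
    have h3 : iteratedDeriv m (fun _ : ℝ => (0 : ℝ)) x = 0 := by
      rw [iteratedDeriv_const]
      split_ifs <;> rfl
    rw [h3]
    simp
  have hcont : ∀ m, Continuous (fun x => ((iteratedDeriv m φ x : ℝ) : ℂ)) := fun m =>
    continuous_ofReal.comp (hφ.continuous_iteratedDeriv m (by exact_mod_cast le_top))
  have hexp : Continuous fun x : ℝ => cexp (α * x) := by fun_prop
  have hint : ∀ m (c : ℂ), Integrable (fun x : ℝ => ((iteratedDeriv m φ x : ℝ) : ℂ) *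
      (c * cexp (α * x))) := fun m c =>
    ((hcont m).mul (continuous_const.mul hexp)).integrable_of_hasCompactSupport (hcs m).mul_right
  have hd : ∀ x, HasDerivAt (fun x => ((iteratedDeriv n φ x : ℝ) : ℂ))
      ((iteratedDeriv (n + 1) φ x : ℝ) : ℂ) x := by
    intro x
    have h1 : DifferentiableAt ℝ (iteratedDeriv n φ) x :=
      (hφ.differentiable_iteratedDeriv n (by exact_mod_cast ENat.natCast_lt_top n)).differentiableAt
    have h2 := h1.hasDerivAt
    rw [← iteratedDeriv_succ] at h2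
    exact h2.ofReal_comp
  have he : ∀ x : ℝ, HasDerivAt (fun x : ℝ => α⁻¹ * cexp (α * x)) (cexp (α * x)) x := by
    intro x
    have h1 : HasDerivAt (fun x : ℝ => α * (x : ℂ)) (α * 1) x :=
      (Complex.ofRealCLM.hasDerivAt (x := x)).const_mul α
    have h2 := (h1.cexp).const_mul α⁻¹
    have h3 : α⁻¹ * (cexp (α * x) * (α * 1)) = cexp (α * x) := by
      field_simp
    rwa [h3] at h2
  have key := integral_mul_deriv_eq_deriv_mul_of_integrable
    (u := fun x => ((iteratedDeriv n φ x : ℝ) : ℂ)) (v := fun x : ℝ => α⁻¹ * cexp (α * x))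
    (u' := fun x => ((iteratedDeriv (n + 1) φ x : ℝ) : ℂ)) (v' := fun x : ℝ => cexp (α * x))
    (fun x _ => hd x) (fun x _ => he x)
    (by have h := hint n 1; simp only [one_mul] at h; exact h) (hint (n + 1) α⁻¹) (hint n α⁻¹)
  rw [key, ← integral_const_mul]
  congr 1
  refine integral_congr_ae (Eventually.of_forall fun x => ?_)
  show _ * (α⁻¹ * cexp (α * x)) = α⁻¹ * (_ * cexp (α * x))
  ring

theorem ibpN (φ : ℝ → ℝ) (hφ : ContDiff ℝ ∞ φ) (R : ℝ) (hs : ∀ x, R < |x| → φ x = 0) (α : ℂ)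
    (hα : α ≠ 0) (n : ℕ) :
    ∫ x : ℝ, ((φ x : ℝ) : ℂ) * cexp (α * x) =
      (-α⁻¹) ^ n * ∫ x : ℝ, ((iteratedDeriv n φ x : ℝ) : ℂ) * cexp (α * x) := by
  induction n with
  | zero => simp
  | succ n ih =>
    rw [ih, ibp1 φ hφ R hs α hα n, pow_succ]
    ring

/-- the derivatives of `x ^ p * V x` -/
theorem deriv_bd (p N : ℕ) : ∃ C : ℝ, 0 ≤ C ∧ ∀ (R : ℝ) (M : ℕ → ℝ) (V : ℝ → ℝ), 1 ≤ R →
    ContDiff ℝ ∞ V → (∀ j x, |iteratedDeriv j V x| ≤ M j) → ∀ x : ℝ, |x| ≤ R →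
    |iteratedDeriv N (fun x => x ^ p * V x) x| ≤ C * R ^ p * ∑ j ∈ Finset.range (N + 1), M j := by
  refine ⟨∑ i ∈ Finset.range (N + 1), (N.choose i : ℝ) * p.descFactorial i,
    Finset.sum_nonneg fun i _ => by positivity, ?_⟩
  intro R M V hR hV hM x hx
  have hR0 : 0 ≤ R := by linarith
  have hM0 : ∀ j, 0 ≤ M j := fun j => (abs_nonneg _).trans (hM j 0)
  have h1 : iteratedDeriv N (fun x => x ^ p * V x) x = ∑ i ∈ Finset.range (N + 1),
      (N.choose i : ℝ) * iteratedDeriv i (fun x : ℝ => x ^ p) x * iteratedDeriv (N - i) V x := by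
    have := iteratedDeriv_mul (n := N) (x := x) (f := fun x : ℝ => x ^ p) (g := V)
      (contDiff_id.pow p).contDiffAt (hV.contDiffAt.of_le (by exact_mod_cast le_top))
    exact this
  rw [h1]
  have h2 : ∀ i ∈ Finset.range (N + 1), |(N.choose i : ℝ) * iteratedDeriv i (fun x : ℝ => x ^ p) x *
      iteratedDeriv (N - i) V x| ≤ (N.choose i : ℝ) * p.descFactorial i *
        (R ^ p * ∑ j ∈ Finset.range (N + 1), M j) := by
    intro i hi
    have hi' : i ≤ N := by have := Finset.mem_range.1 hi; omega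
    have h3 : iteratedDeriv i (fun x : ℝ => x ^ p) x = (p.descFactorial i : ℝ) * x ^ (p - i) := by
      rw [iteratedDeriv_pow]
    rw [h3, abs_mul, abs_mul, abs_mul, Nat.abs_cast, Nat.abs_cast, abs_pow]
    have h4 : |x| ^ (p - i) ≤ R ^ p :=
      (pow_le_pow_left₀ (abs_nonneg _) hx _).trans (pow_le_pow_right₀ hR (Nat.sub_le _ _))
    have h5 : |iteratedDeriv (N - i) V x| ≤ ∑ j ∈ Finset.range (N + 1), M j :=
      (hM _ _).trans (Finset.single_le_sum (f := M) (fun j _ => hM0 j)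
        (Finset.mem_range.2 (by omega)))
    have h6 : (0 : ℝ) ≤ (N.choose i : ℝ) * p.descFactorial i := by positivity
    calc (N.choose i : ℝ) * ((p.descFactorial i : ℝ) * |x| ^ (p - i)) * |iteratedDeriv (N - i) V x|
        = (N.choose i : ℝ) * p.descFactorial i * (|x| ^ (p - i) * |iteratedDeriv (N - i) V x|) := by
          ring
      _ ≤ _ := mul_le_mul_of_nonneg_left
          (mul_le_mul h4 h5 (abs_nonneg _) (by positivity)) h6
  refine (Finset.abs_sum_le_sum_abs _ _).trans ((Finset.sum_le_sum h2).trans (le_of_eq ?_))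
  rw [← Finset.sum_mul]
  ring

theorem lp (p N : ℕ) : ∃ C : ℝ, 0 ≤ C ∧ ∀ (R : ℝ) (M : ℕ → ℝ) (V : ℝ → ℝ), 1 ≤ R →
    ContDiff ℝ ∞ V → (∀ x, R < |x| → V x = 0) → (∀ j x, |iteratedDeriv j V x| ≤ M j) → ∀ t : ℝ,
    1 ≤ |t| → ‖∫ x : ℝ, (x : ℂ) ^ p * (V x : ℂ) * cexp ((1 / 2 - (t : ℂ) * I) * x)‖ ≤
    C * R ^ (p + 1) * (∑ j ∈ Finset.range (N + 1), M j) * Real.exp (R / 2) * (|t| ^ N)⁻¹ := by
  obtain ⟨C, hC, hb⟩ := deriv_bd p N
  refine ⟨2 * C, by positivity, ?_⟩
  intro R M V hR hV hs hM t ht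
  have hR0 : 0 ≤ R := by linarith
  have hM0 : ∀ j, 0 ≤ M j := fun j => (abs_nonneg _).trans (hM j 0)
  obtain ⟨φ, hφd⟩ : ∃ φ : ℝ → ℝ, φ = fun x => x ^ p * V x := ⟨_, rfl⟩
  obtain ⟨α, hαd⟩ : ∃ α : ℂ, α = 1 / 2 - (t : ℂ) * I := ⟨_, rfl⟩
  have hre : α.re = 1 / 2 := by rw [hαd]; simp
  have him : α.im = -t := by rw [hαd]; simp
  have hαt : |t| ≤ ‖α‖ := by
    have := Complex.abs_im_le_norm α
    rwa [him, abs_neg] at this
  have hα0 : α ≠ 0 := by
    intro h
    rw [h, norm_zero] at hαt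
    linarith
  have hφ : ContDiff ℝ ∞ φ := by
    rw [hφd]
    exact (contDiff_id.pow p).mul hV
  have hφs : ∀ x, R < |x| → φ x = 0 := fun x hx => by rw [hφd]; simp [hs x hx]
  have e1 : ∀ x : ℝ, (x : ℂ) ^ p * (V x : ℂ) * cexp ((1 / 2 - (t : ℂ) * I) * x) =
      ((φ x : ℝ) : ℂ) * cexp (α * x) := by
    intro x
    rw [hφd, hαd]
    push_cast
    ring
  simp only [e1]
  rw [ibpN φ hφ R hφs α hα0 N, norm_mul, norm_pow, norm_neg, norm_inv]
  have h1 : ‖∫ x : ℝ, ((iteratedDeriv N φ x : ℝ) : ℂ) * cexp (α * x)‖ ≤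
      (C * R ^ p * ∑ j ∈ Finset.range (N + 1), M j) * Real.exp (R / 2) * (2 * R) := by
    have hz : ∀ x, x ∉ Icc (-R) R → ((iteratedDeriv N φ x : ℝ) : ℂ) * cexp (α * x) = 0 := by
      intro x hx
      have hx' : R < |x| := by
        by_contra hcon
        exact hx (abs_le.1 (not_lt.1 hcon))
      have hopen : ∀ᶠ y in 𝓝 x, R < |y| := (continuous_abs.tendsto x).eventually (lt_mem_nhds hx')
      have h1 : φ =ᶠ[𝓝 x] fun _ => (0 : ℝ) := hopen.mono fun y hy => hφs y hy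
      have h2 := h1.iteratedDeriv_eq N
      have h3 : iteratedDeriv N (fun _ : ℝ => (0 : ℝ)) x = 0 := by
        rw [iteratedDeriv_const]
        split_ifs <;> rfl
      rw [h2, h3]
      simp
    rw [← setIntegral_eq_integral_of_forall_compl_eq_zero hz]
    have h4 := norm_setIntegral_le_of_norm_le_const (μ := volume) (s := Icc (-R) R)
      (f := fun x : ℝ => ((iteratedDeriv N φ x : ℝ) : ℂ) * cexp (α * x))
      (C := (C * R ^ p * ∑ j ∈ Finset.range (N + 1), M j) * Real.exp (R / 2))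
      measure_Icc_lt_top (fun x hx => by
        have hxa : |x| ≤ R := abs_le.2 hx
        rw [norm_mul, Complex.norm_real, Complex.norm_exp, Real.norm_eq_abs]
        have h5 : (α * (x : ℂ)).re = x / 2 := by
          rw [Complex.mul_re, hre]
          simp
          ring
        rw [h5]
        refine mul_le_mul ?_ (Real.exp_le_exp.2 ?_) (Real.exp_pos _).le ?_
        · rw [hφd]
          exact hb R M V hR hV hM x hxa
        · have := (abs_le.1 hxa).2
          linarith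
        · exact mul_nonneg (by positivity) (Finset.sum_nonneg fun j _ => hM0 j))
    refine h4.trans (le_of_eq ?_)
    rw [Real.volume_real_Icc_of_le (by linarith)]
    ring
  have h2 : (‖α‖⁻¹) ^ N ≤ (|t| ^ N)⁻¹ := by
    rw [← inv_pow]
    exact pow_le_pow_left₀ (by positivity) (inv_anti₀ (by linarith) hαt) N
  have h3 : 0 ≤ ∑ j ∈ Finset.range (N + 1), M j := Finset.sum_nonneg fun j _ => hM0 j
  calc (‖α‖⁻¹) ^ N * ‖∫ x : ℝ, ((iteratedDeriv N φ x : ℝ) : ℂ) * cexp (α * x)‖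
      ≤ (|t| ^ N)⁻¹ * ((C * R ^ p * ∑ j ∈ Finset.range (N + 1), M j) * Real.exp (R / 2) * (2 * R)) :=
        mul_le_mul h2 h1 (norm_nonneg _) (by positivity)
    _ = _ := by ring

end Pool.Agent.J6H73.PI
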