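import Pool.Agent.J6H39.PI.Stm2

/-! The integrated diagonal terms. -/

set_option autoImplicit false

open MeasureTheory Set Filter Topology
open scoped ContDiff

namespace Pool.Agent.J6H73.DQ

open Pool.Agent.J6H39.PI
open Pool.Agent.J6H39.KV (dv)
open Pool.Agent.J6H39.SP (Mt)

theorem adm_zero {v : ℝ → ℝ} (hv : Adm v) {x : ℝ} (hx : 1 ≤ x) : v x = 0 := by
  have h1 := hv.sq x
  rw [hv.one (-x) (by linarith)] at h1
  have h2 : v x ^ 2 = 0 := by linarith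
  exact pow_eq_zero_iff (two_ne_zero) |>.1 h2

theorem fin_sum {v : ℝ → ℝ} (hv : Adm v) (b : ℕ → ℝ) (Y : ℝ) (N : ℕ) (hN : Real.exp (Y + 1) ≤ N) :
    ∑' n : ℕ, b n * (n : ℝ)⁻¹ * v (Real.log n - Y) ^ 2 =
      ∑ n ∈ Finset.Icc 1 N, b n * (n : ℝ)⁻¹ * v (Real.log n - Y) ^ 2 := by
  refine tsum_eq_sum fun n hn => ?_
  rw [Finset.mem_Icc] at hn
  rcases Nat.eq_zero_or_pos n with rfl | hpos
  · simp
  · have h1 : N < n := by
      by_contra h
      exact hn ⟨hpos, not_lt.1 h⟩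
    have h2 : Real.exp (Y + 1) ≤ n := hN.trans (by exact_mod_cast h1.le)
    have h3 : Y + 1 ≤ Real.log n := by
      rw [Real.le_log_iff_exp_le (by exact_mod_cast hpos)]
      exact h2
    rw [adm_zero hv (by linarith)]
    simp

theorem sum_anti (N : ℕ) (f : ℕ × ℕ → ℝ) :
    ∑ n ∈ Finset.Icc 1 N, ∑ x ∈ n.divisorsAntidiagonal, f x =
      ∑ x ∈ (Finset.Icc 1 N) ×ˢ (Finset.Icc 1 N), if x.1 * x.2 ≤ N then f x else 0 := by
  classical
  rw [← Finset.sum_filter, ← Finset.sum_fiberwise_of_maps_to (g := fun x : ℕ × ℕ => x.1 * x.2)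
    (t := Finset.Icc 1 N)]
  · refine Finset.sum_congr rfl fun n hn => Finset.sum_congr ?_ fun _ _ => rfl
    rw [Finset.mem_Icc] at hn
    ext ⟨d, e⟩
    simp only [Nat.mem_divisorsAntidiagonal, Finset.mem_filter, Finset.mem_product, Finset.mem_Icc]
    constructor
    · rintro ⟨h1, h2⟩
      have hd : 0 < d := Nat.pos_of_ne_zero fun h => by rw [h, zero_mul] at h1; omega
      have he : 0 < e := Nat.pos_of_ne_zero fun h => by rw [h, mul_zero] at h1; omega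
      have h3 : d ≤ d * e := Nat.le_mul_of_pos_right _ he
      have h4 : e ≤ d * e := Nat.le_mul_of_pos_left _ hd
      refine ⟨⟨⟨⟨hd, by omega⟩, ⟨he, by omega⟩⟩, by omega⟩, h1⟩
    · rintro ⟨-, h1⟩
      exact ⟨h1, by omega⟩
  · intro x hx
    simp only [Finset.mem_filter, Finset.mem_product, Finset.mem_Icc] at hx ⊢
    exact ⟨Nat.mul_pos hx.1.1.1 hx.1.2.1, hx.2⟩

theorem poly_bd (P : Polynomial ℝ) : ∃ C : ℝ, 0 ≤ C ∧ ∀ x : ℝ, |P.eval x| ≤ C * Real.exp (|x| / 4) := by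
  induction P using Polynomial.induction_on' with
  | add p q hp hq =>
    obtain ⟨C1, h1, H1⟩ := hp
    obtain ⟨C2, h2, H2⟩ := hq
    refine ⟨C1 + C2, by positivity, fun x => ?_⟩
    rw [Polynomial.eval_add, add_mul]
    exact (abs_add_le _ _).trans (add_le_add (H1 x) (H2 x))
  | monomial n a =>
    refine ⟨|a| * (4 ^ n * n.factorial), by positivity, fun x => ?_⟩
    rw [Polynomial.eval_monomial, abs_mul, abs_pow, mul_assoc]
    refine mul_le_mul_of_nonneg_left ?_ (abs_nonneg a)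
    have h1 := Real.pow_div_factorial_le_exp (|x| / 4) (by positivity) n
    have h2 : (0 : ℝ) < n.factorial := by exact_mod_cast n.factorial_pos
    rw [div_le_iff₀ h2, div_pow, div_le_iff₀ (by positivity)] at h1
    linarith

section
variable {v : ℝ → ℝ} (hv : Adm v) {k m : ℕ} {a : ℕ → ℝ}
  (ha : ∀ n : ℕ, 1 ≤ n → (dv k n : ℝ) ^ 2 = ∑ x ∈ n.divisorsAntidiagonal, (dv m x.1 : ℝ) * a x.2)

/-- the inner sum -/
noncomputable def FF (v : ℝ → ℝ) (m : ℕ) (Y : ℝ) : ℝ :=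
  ∑' n : ℕ, (dv m n : ℝ) * (n : ℝ)⁻¹ * v (Real.log n - Y) ^ 2

/-- the sum of the squares -/
noncomputable def SS (v : ℝ → ℝ) (k : ℕ) (Y : ℝ) : ℝ :=
  ∑' n : ℕ, (dv k n : ℝ) ^ 2 * (n : ℝ)⁻¹ * v (Real.log n - Y) ^ 2

include hv in
theorem FF_zero (Y : ℝ) (e : ℕ) (he : Real.exp (Y + 1) ≤ e) : FF v m (Y - Real.log e) = 0 := by
  have he0 : (0 : ℝ) < e := lt_of_lt_of_le (Real.exp_pos _) he
  have h1 : Y + 1 ≤ Real.log e := by rwa [Real.le_log_iff_exp_le he0]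
  unfold FF
  refine (tsum_congr fun n => ?_).trans tsum_zero
  rcases Nat.eq_zero_or_pos n with rfl | hpos
  · simp
  · have h2 : 0 ≤ Real.log n := Real.log_natCast_nonneg n
    rw [adm_zero hv (by linarith)]
    simp

include hv ha in
theorem hasSum_SS (Y : ℝ) :
    HasSum (fun e : ℕ => a e * (e : ℝ)⁻¹ * FF v m (Y - Real.log e)) (SS v k Y) := by
  classical
  obtain ⟨N, hN⟩ := exists_nat_ge (Real.exp (Y + 1))
  have h1 : SS v k Y = ∑ e ∈ Finset.Icc 1 N, a e * (e : ℝ)⁻¹ * FF v m (Y - Real.log e) := by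
    unfold SS
    rw [fin_sum hv (fun n => (dv k n : ℝ) ^ 2) Y N hN]
    let f : ℕ × ℕ → ℝ := fun x => (dv m x.1 : ℝ) * a x.2 * (((x.1 * x.2 : ℕ) : ℝ))⁻¹ *
      v (Real.log ((x.1 * x.2 : ℕ) : ℝ) - Y) ^ 2
    have h2 : ∀ n ∈ Finset.Icc 1 N, (dv k n : ℝ) ^ 2 * (n : ℝ)⁻¹ * v (Real.log n - Y) ^ 2 =
        ∑ x ∈ n.divisorsAntidiagonal, f x := by
      intro n hn
      rw [ha n (Finset.mem_Icc.1 hn).1, Finset.sum_mul, Finset.sum_mul]
      refine Finset.sum_congr rfl fun x hx => ?_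
      have := (Nat.mem_divisorsAntidiagonal.1 hx).1
      show _ = (dv m x.1 : ℝ) * a x.2 * (((x.1 * x.2 : ℕ) : ℝ))⁻¹ *
        v (Real.log ((x.1 * x.2 : ℕ) : ℝ) - Y) ^ 2
      rw [this]
    rw [Finset.sum_congr rfl h2, sum_anti, Finset.sum_product_right]
    refine Finset.sum_congr rfl fun e he => ?_
    have he1 : 1 ≤ e := (Finset.mem_Icc.1 he).1
    have he0 : (0 : ℝ) < e := by exact_mod_cast he1
    have hle : 0 ≤ Real.log e := Real.log_natCast_nonneg e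
    unfold FF
    rw [fin_sum hv (fun n => (dv m n : ℝ)) (Y - Real.log e) N
      ((Real.exp_le_exp.2 (by linarith)).trans hN), Finset.mul_sum]
    refine Finset.sum_congr rfl fun d hd => ?_
    have hd1 : 1 ≤ d := (Finset.mem_Icc.1 hd).1
    have hd0 : (0 : ℝ) < d := by exact_mod_cast hd1
    have h3 : f (d, e) = a e * (e : ℝ)⁻¹ * ((dv m d : ℝ) * (d : ℝ)⁻¹ *
        v (Real.log d - (Y - Real.log e)) ^ 2) := by
      show (dv m d : ℝ) * a e * (((d * e : ℕ) : ℝ))⁻¹ * v (Real.log ((d * e : ℕ) : ℝ) - Y) ^ 2 = _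
      push_cast
      rw [Real.log_mul hd0.ne' he0.ne', mul_inv,
        show Real.log d + Real.log e - Y = Real.log d - (Y - Real.log e) by ring]
      ring
    show (if d * e ≤ N then f (d, e) else 0) = _
    rw [h3]
    split_ifs with hle2
    · rfl
    · have h4 : Real.exp (Y + 1) ≤ ((d * e : ℕ) : ℝ) :=
        hN.trans (by exact_mod_cast (not_le.1 hle2).le)
      have h5 : Y + 1 ≤ Real.log ((d * e : ℕ) : ℝ) := by
        rwa [Real.le_log_iff_exp_le (lt_of_lt_of_le (Real.exp_pos _) h4)]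
      rw [Nat.cast_mul, Real.log_mul hd0.ne' he0.ne'] at h5
      rw [adm_zero hv (by linarith)]
      simp
  rw [h1]
  refine hasSum_sum_of_ne_finset_zero fun e he => ?_
  rw [Finset.mem_Icc] at he
  rcases Nat.eq_zero_or_pos e with rfl | hpos
  · simp
  · have h2 : N < e := by
      by_contra h
      exact he ⟨hpos, not_lt.1 h⟩
    rw [FF_zero hv Y e (hN.trans (by exact_mod_cast h2.le)), mul_zero]

end

theorem summable_poly {a : ℕ → ℝ} (hs : ∀ s : ℝ, 1 / 2 < s → Summable (fun n : ℕ => |a n| * (n : ℝ) ^ (-s)))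
    (P : Polynomial ℝ) : Summable (fun e : ℕ => a e * (e : ℝ)⁻¹ * P.eval (-Real.log e)) := by
  obtain ⟨C, hC, hb⟩ := poly_bd P
  refine Summable.of_norm_bounded (g := fun e : ℕ => C * (|a e| * (e : ℝ) ^ (-(3 / 4 : ℝ))))
    ((hs (3 / 4) (by norm_num)).mul_left C) fun e => ?_
  rcases Nat.eq_zero_or_pos e with rfl | hpos
  · simp only [CharP.cast_eq_zero, inv_zero, mul_zero, zero_mul, norm_zero]
    positivity
  · have he0 : (0 : ℝ) < e := by exact_mod_cast hpos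
    rw [norm_mul, norm_mul, Real.norm_eq_abs, Real.norm_eq_abs, Real.norm_eq_abs,
      abs_of_nonneg (inv_nonneg.2 he0.le)]
    have h1 := hb (-Real.log e)
    rw [abs_neg, abs_of_nonneg (Real.log_natCast_nonneg e)] at h1
    have h2 : Real.exp (Real.log e / 4) = (e : ℝ) ^ (1 / 4 : ℝ) := by
      rw [Real.rpow_def_of_pos he0]
      congr 1
      ring
    have h3 : (e : ℝ)⁻¹ * (e : ℝ) ^ (1 / 4 : ℝ) = (e : ℝ) ^ (-(3 / 4 : ℝ)) := by
      rw [← Real.rpow_neg_one, ← Real.rpow_add he0]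
      norm_num
    calc |a e| * (e : ℝ)⁻¹ * |P.eval (-Real.log e)|
        ≤ |a e| * (e : ℝ)⁻¹ * (C * Real.exp (Real.log e / 4)) :=
          mul_le_mul_of_nonneg_left h1 (by positivity)
      _ = C * (|a e| * ((e : ℝ)⁻¹ * (e : ℝ) ^ (1 / 4 : ℝ))) := by rw [h2]; ring
      _ = _ := by rw [h3]

/-- the polynomial `Q₁` -/
theorem exists_Q1 {a : ℕ → ℝ} (hs : ∀ s : ℝ, 1 / 2 < s → Summable (fun n : ℕ => |a n| * (n : ℝ) ^ (-s)))
    (Q0 : Polynomial ℝ) (m : ℕ) (hQ0 : Q0.natDegree ≤ m) : ∃ Q1 : Polynomial ℝ, Q1.natDegree ≤ m ∧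
    ∀ Y : ℝ, HasSum (fun e : ℕ => a e * (e : ℝ)⁻¹ * Q0.eval (Y - Real.log e)) (Q1.eval Y) := by
  classical
  let c : ℕ → ℝ := fun i => ∑' e : ℕ, a e * (e : ℝ)⁻¹ * (Polynomial.hasseDeriv i Q0).eval (-Real.log e)
  refine ⟨∑ i ∈ Finset.range (m + 1), Polynomial.C (c i) * Polynomial.X ^ i, ?_, ?_⟩
  · refine Polynomial.natDegree_sum_le_of_forall_le _ _ fun i hi => ?_
    refine (Polynomial.natDegree_C_mul_X_pow_le _ _).trans ?_
    have := Finset.mem_range.1 hi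
    omega
  · intro Y
    have h1 : ∀ e : ℕ, a e * (e : ℝ)⁻¹ * Q0.eval (Y - Real.log e) = ∑ i ∈ Finset.range (m + 1),
        (a e * (e : ℝ)⁻¹ * (Polynomial.hasseDeriv i Q0).eval (-Real.log e)) * Y ^ i := by
      intro e
      have h2 : Q0.eval (Y - Real.log e) = (Polynomial.taylor (-Real.log e) Q0).eval Y := by
        rw [Polynomial.taylor_eval]
        congr 1
      rw [h2, Polynomial.eval_eq_sum_range' (n := m + 1)
        (by rw [Polynomial.natDegree_taylor]; omega), Finset.mul_sum]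
      refine Finset.sum_congr rfl fun i _ => ?_
      rw [Polynomial.taylor_coeff]
      ring
    simp only [h1]
    have h3 : Polynomial.eval Y (∑ i ∈ Finset.range (m + 1), Polynomial.C (c i) * Polynomial.X ^ i) =
        ∑ i ∈ Finset.range (m + 1), c i * Y ^ i := by
      rw [Polynomial.eval_finset_sum]
      refine Finset.sum_congr rfl fun i _ => ?_
      simp
    rw [h3]
    exact hasSum_sum fun i _ => ((summable_poly hs (Polynomial.hasseDeriv i Q0)).hasSum).mul_right _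

/-- the asymptotic formula for the sum of the squares -/
theorem SS_bd (hDM : S_DM) (hFA : S_FA) (k : ℕ) (v : ℝ → ℝ) (hk : 1 ≤ k) (hv : Adm v) :
    ∃ Q1 : Polynomial ℝ, Q1.natDegree ≤ k ^ 2 ∧ ∀ δ : ℝ, 0 < δ → δ < 1 / 2 → ∃ C : ℝ, 0 ≤ C ∧ ∀ Y : ℝ,
      |SS v k Y - Q1.eval Y| ≤ C * Real.exp (-((1 / 2 - δ) * Y)) := by
  obtain ⟨a, -, ha, hs⟩ := hFA k hk
  obtain ⟨Q0, hQ0, H0⟩ := hDM v hv (k ^ 2)
  obtain ⟨Q1, hQ1, H1⟩ := exists_Q1 hs Q0 (k ^ 2) hQ0
  refine ⟨Q1, hQ1, fun δ hδ hδ2 => ?_⟩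
  obtain ⟨C, hC⟩ := H0 δ hδ hδ2
  have hC0 : 0 ≤ C := by
    have h1 := (abs_nonneg _).trans (hC 0).2
    simpa using h1
  have hsum := hs (1 / 2 + δ) (by linarith)
  refine ⟨C * ∑' e : ℕ, |a e| * (e : ℝ) ^ (-(1 / 2 + δ)), mul_nonneg hC0
    (tsum_nonneg fun e => by positivity), fun Y => ?_⟩
  have h1 := (hasSum_SS hv ha Y).sub (H1 Y)
  rw [← h1.tsum_eq, ← Real.norm_eq_abs]
  have h2 : HasSum (fun e : ℕ => C * Real.exp (-((1 / 2 - δ) * Y)) * (|a e| * (e : ℝ) ^ (-(1 / 2 + δ))))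
      (C * Real.exp (-((1 / 2 - δ) * Y)) * ∑' e : ℕ, |a e| * (e : ℝ) ^ (-(1 / 2 + δ))) :=
    hsum.hasSum.mul_left _
  refine (tsum_of_norm_bounded h2 fun e => ?_).trans (le_of_eq (by ring))
  rcases Nat.eq_zero_or_pos e with rfl | hpos
  · simp only [CharP.cast_eq_zero, inv_zero, mul_zero, zero_mul, sub_self, norm_zero]
    positivity
  · have he0 : (0 : ℝ) < e := by exact_mod_cast hpos
    have h3 := (hC (Y - Real.log e)).2
    have h4 : a e * (e : ℝ)⁻¹ * FF v (k ^ 2) (Y - Real.log e) -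
        a e * (e : ℝ)⁻¹ * Q0.eval (Y - Real.log e) =
        a e * (e : ℝ)⁻¹ * (FF v (k ^ 2) (Y - Real.log e) - Q0.eval (Y - Real.log e)) := by ring
    rw [h4, norm_mul, norm_mul, Real.norm_eq_abs, Real.norm_eq_abs, Real.norm_eq_abs,
      abs_of_nonneg (inv_nonneg.2 he0.le)]
    have h5 : Real.exp (-((1 / 2 - δ) * (Y - Real.log e))) =
        Real.exp (-((1 / 2 - δ) * Y)) * (e : ℝ) ^ (1 / 2 - δ) := by
      rw [Real.rpow_def_of_pos he0, ← Real.exp_add]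
      congr 1
      ring
    have h6 : (e : ℝ)⁻¹ * (e : ℝ) ^ (1 / 2 - δ) = (e : ℝ) ^ (-(1 / 2 + δ)) := by
      rw [← Real.rpow_neg_one, ← Real.rpow_add he0]
      congr 1
      ring
    rw [h5] at h3
    calc |a e| * (e : ℝ)⁻¹ * |FF v (k ^ 2) (Y - Real.log e) - Q0.eval (Y - Real.log e)|
        ≤ |a e| * (e : ℝ)⁻¹ * (C * (Real.exp (-((1 / 2 - δ) * Y)) * (e : ℝ) ^ (1 / 2 - δ))) :=
          mul_le_mul_of_nonneg_left h3 (by positivity)
      _ = C * Real.exp (-((1 / 2 - δ) * Y)) * (|a e| * ((e : ℝ)⁻¹ * (e : ℝ) ^ (1 / 2 - δ))) := by ring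
      _ = _ := by rw [h6]

end Pool.Agent.J6H73.DQ
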